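import Pool.Agent.Q62.CC.Stm

/-!
# Project CC, lemma CC-19: jets of free series

`t_FRJ` : the series `∑ g i (-l i)^n e^(-l i t)` form a jet, of Gevrey order one.
-/

set_option autoImplicit false

open Set Filter Topology MeasureTheory
open scoped ENNReal ContDiff

namespace Pool.Agent.Q62.CC

open Pool.Agent.Q61.NC (IsJet Bd mulJ Good sh Sp pd StopsIn)

/-- Elementary bound for the terms. -/
theorem frj_term {A : ℝ} (hA : 0 ≤ A) {x l t t₁ : ℝ} (hl : 0 < l) (hx : |x| ≤ A * (1 + l) ^ 2)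
    (ht₁ : 0 < t₁) (ht : t₁ ≤ t) (n : ℕ) :
    |x| * l ^ n * Real.exp (-(l * t)) ≤
      A * (1 + 8 / t₁) ^ 4 * ((2 / t₁) ^ n * (n.factorial : ℝ)) * (l⁻¹) ^ 2 := by
  have h1 : l ^ n * Real.exp (-(l * (t₁ / 2))) ≤ (2 / t₁) ^ n * (n.factorial : ℝ) := by
    have h2 := Real.pow_div_factorial_le_exp (l * (t₁ / 2)) (by positivity) n
    rw [div_le_iff₀ (by positivity)] at h2
    rw [Real.exp_neg, ← div_eq_mul_inv, div_le_iff₀ (Real.exp_pos _)]
    have h3 : l ^ n = (l * (t₁ / 2)) ^ n * (2 / t₁) ^ n := by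
      rw [← mul_pow]
      congr 1
      field_simp
    rw [h3]
    have h4 : 0 ≤ (2 / t₁) ^ n := by positivity
    calc (l * (t₁ / 2)) ^ n * (2 / t₁) ^ n
        ≤ (Real.exp (l * (t₁ / 2)) * (n.factorial : ℝ)) * (2 / t₁) ^ n := by gcongr
      _ = _ := by ring
  have h2 : (1 + l) ^ 2 * l ^ 2 * Real.exp (-(l * (t₁ / 2))) ≤ (1 + 8 / t₁) ^ 4 := by
    have h3 : l * (t₁ / 8) + 1 ≤ Real.exp (l * (t₁ / 8)) := Real.add_one_le_exp _
    rw [Real.exp_neg, ← div_eq_mul_inv, div_le_iff₀ (Real.exp_pos _)]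
    have h5 : 0 < 1 + 8 / t₁ := by positivity
    have h6 : 1 + l ≤ (1 + 8 / t₁) * (l * (t₁ / 8) + 1) := by
      have : (1 + 8 / t₁) * (l * (t₁ / 8) + 1) = 1 + l + (l * (t₁ / 8) + 8 / t₁) := by
        field_simp
        ring
      rw [this]
      have : 0 ≤ l * (t₁ / 8) + 8 / t₁ := by positivity
      linarith
    have h7 : 1 + l ≤ (1 + 8 / t₁) * Real.exp (l * (t₁ / 8)) := by
      calc 1 + l ≤ (1 + 8 / t₁) * (l * (t₁ / 8) + 1) := h6
        _ ≤ _ := by gcongr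
    have h8 : (1 + l) ^ 4 ≤ ((1 + 8 / t₁) * Real.exp (l * (t₁ / 8))) ^ 4 := by gcongr
    have h9 : Real.exp (l * (t₁ / 8)) ^ 4 = Real.exp (l * (t₁ / 2)) := by
      rw [← Real.exp_nat_mul]
      congr 1
      push_cast
      ring
    rw [mul_pow, h9] at h8
    have h10 : l ^ 2 ≤ (1 + l) ^ 2 := by nlinarith
    calc (1 + l) ^ 2 * l ^ 2 ≤ (1 + l) ^ 2 * (1 + l) ^ 2 := by gcongr
      _ = (1 + l) ^ 4 := by ring
      _ ≤ _ := h8
  have h3 : Real.exp (-(l * t)) ≤ Real.exp (-(l * (t₁ / 2))) * Real.exp (-(l * (t₁ / 2))) := by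
    rw [← Real.exp_add]
    apply Real.exp_le_exp.2
    nlinarith
  have h4 : l ^ 2 * (l⁻¹) ^ 2 = 1 := by
    field_simp
  calc |x| * l ^ n * Real.exp (-(l * t))
      ≤ (A * (1 + l) ^ 2) * l ^ n *
          (Real.exp (-(l * (t₁ / 2))) * Real.exp (-(l * (t₁ / 2)))) := by gcongr
    _ = (A * (1 + l) ^ 2) * l ^ n *
          (Real.exp (-(l * (t₁ / 2))) * Real.exp (-(l * (t₁ / 2)))) * (l ^ 2 * (l⁻¹) ^ 2) := by
        rw [h4, mul_one]
    _ = A * ((1 + l) ^ 2 * l ^ 2 * Real.exp (-(l * (t₁ / 2)))) *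
          (l ^ n * Real.exp (-(l * (t₁ / 2)))) * (l⁻¹) ^ 2 := by ring
    _ ≤ A * (1 + 8 / t₁) ^ 4 * ((2 / t₁) ^ n * (n.factorial : ℝ)) * (l⁻¹) ^ 2 := by gcongr

theorem frj_norm {A : ℝ} (hA : 0 ≤ A) {x l t t₁ : ℝ} (hl : 0 < l) (hx : |x| ≤ A * (1 + l) ^ 2)
    (ht₁ : 0 < t₁) (ht : t₁ ≤ t) (n : ℕ) :
    ‖x * (-l) ^ n * Real.exp (-(l * t))‖ ≤
      A * (1 + 8 / t₁) ^ 4 * ((2 / t₁) ^ n * (n.factorial : ℝ)) * (l⁻¹) ^ 2 := by
  rw [Real.norm_eq_abs, abs_mul, abs_mul, abs_pow, abs_neg, abs_of_pos hl,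
    abs_of_pos (Real.exp_pos _)]
  exact frj_term hA hl hx ht₁ ht n

theorem t_FRJ : S_FRJ := by
  intro ι _ l g A hA hl hs hg
  have hS0 : 0 ≤ ∑' i, ((l i)⁻¹) ^ 2 := tsum_nonneg fun i => sq_nonneg _
  refine ⟨?_, ?_, ?_⟩
  · intro n t ht
    have ht₁ : 0 < t / 2 := by linarith
    refine hasDerivAt_tsum_of_isPreconnected
      (g := fun (k : ι) (t : ℝ) => g k * (-l k) ^ n * Real.exp (-(l k * t)))
      (g' := fun (k : ι) (t : ℝ) => g k * (-l k) ^ (n + 1) * Real.exp (-(l k * t)))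
      (t := Ioi (t / 2)) (y₀ := t)
      (hs.mul_left (A * (1 + 8 / (t / 2)) ^ 4 *
        ((2 / (t / 2)) ^ (n + 1) * ((n + 1).factorial : ℝ))))
      isOpen_Ioi isPreconnected_Ioi ?_ ?_ ?_ ?_ ?_
    · intro k s _
      have h1 : HasDerivAt (fun s : ℝ => -(l k * s)) (-(l k)) s := by
        have h := ((hasDerivAt_id s).const_mul (l k)).neg
        rw [mul_one] at h
        exact h
      have h2 := (h1.exp).const_mul (g k * (-l k) ^ n)
      have e : g k * (-l k) ^ (n + 1) * Real.exp (-(l k * s)) =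
          g k * (-l k) ^ n * (Real.exp (-(l k * s)) * -(l k)) := by
        rw [pow_succ]; ring
      rw [e]
      exact h2
    · intro k s hs'
      exact frj_norm hA (hl k) (hg k) ht₁ (le_of_lt hs') (n + 1)
    · show t / 2 < t
      linarith
    · exact Summable.of_norm_bounded (hs.mul_left _) fun k =>
        frj_norm hA (hl k) (hg k) ht le_rfl n
    · show t / 2 < t
      linarith
  · intro r hr t₁ ht₁
    refine ⟨A * (1 + 8 / t₁) ^ 4 * Real.exp (2 / t₁ / r) * ∑' i, ((l i)⁻¹) ^ 2, by positivity,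
      fun n t ht => ?_⟩
    have h1 : |fj l g n t| ≤
        A * (1 + 8 / t₁) ^ 4 * ((2 / t₁) ^ n * (n.factorial : ℝ)) * ∑' i, ((l i)⁻¹) ^ 2 := by
      rw [fj, ← tsum_mul_left]
      rw [← Real.norm_eq_abs]
      exact tsum_of_norm_bounded (hs.mul_left _).hasSum fun k =>
        frj_norm hA (hl k) (hg k) ht₁ ht n
    have h2 : (2 / t₁) ^ n * (n.factorial : ℝ) ≤
        Real.exp (2 / t₁ / r) * (r ^ n * ((2 * n).factorial : ℝ)) := by
      have h3 := Real.pow_div_factorial_le_exp (2 / t₁ / r) (by positivity) n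
      rw [div_le_iff₀ (by positivity)] at h3
      have h4 : (2 / t₁) ^ n = (2 / t₁ / r) ^ n * r ^ n := by
        rw [← mul_pow]
        congr 1
        field_simp
      have h5 : (n.factorial : ℝ) * (n.factorial : ℝ) ≤ ((2 * n).factorial : ℝ) := by
        have h6 := Nat.factorial_mul_factorial_dvd_factorial_add n n
        have h7 := Nat.le_of_dvd (Nat.factorial_pos _) h6
        rw [← two_mul] at h7
        exact_mod_cast h7
      rw [h4]
      calc (2 / t₁ / r) ^ n * r ^ n * (n.factorial : ℝ)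
          ≤ (Real.exp (2 / t₁ / r) * (n.factorial : ℝ)) * r ^ n * (n.factorial : ℝ) := by gcongr
        _ = Real.exp (2 / t₁ / r) * (r ^ n * ((n.factorial : ℝ) * (n.factorial : ℝ))) := by ring
        _ ≤ _ := by gcongr
    calc |fj l g n t|
        ≤ A * (1 + 8 / t₁) ^ 4 * ((2 / t₁) ^ n * (n.factorial : ℝ)) * ∑' i, ((l i)⁻¹) ^ 2 := h1
      _ ≤ A * (1 + 8 / t₁) ^ 4 *
            (Real.exp (2 / t₁ / r) * (r ^ n * ((2 * n).factorial : ℝ))) *
              ∑' i, ((l i)⁻¹) ^ 2 := by gcongr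
      _ = _ := by ring
  · intro t₁ ht₁
    refine ⟨A * (1 + 8 / t₁) ^ 4 * ∑' i, ((l i)⁻¹) ^ 2, by positivity, fun n t ht => ?_⟩
    have hsum : Summable fun i => |g i| * l i ^ n * Real.exp (-(l i * t)) := by
      refine Summable.of_nonneg_of_le (fun i => ?_) (fun i => frj_term hA (hl i) (hg i) ht₁ ht n)
        (hs.mul_left _)
      have := hl i
      positivity
    refine ⟨hsum, ?_⟩
    calc ∑' i, |g i| * l i ^ n * Real.exp (-(l i * t))
        ≤ ∑' i, A * (1 + 8 / t₁) ^ 4 * ((2 / t₁) ^ n * (n.factorial : ℝ)) * ((l i)⁻¹) ^ 2 :=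
          hsum.tsum_le_tsum (fun i => frj_term hA (hl i) (hg i) ht₁ ht n) (hs.mul_left _)
      _ = A * (1 + 8 / t₁) ^ 4 * ((2 / t₁) ^ n * (n.factorial : ℝ)) * ∑' i, ((l i)⁻¹) ^ 2 := by
          rw [tsum_mul_left]
      _ = _ := by ring

end Pool.Agent.Q62.CC
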